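import Pool.Agent.Helper12.RQ.Goals

/-!
# DENS: the flux measure of a star function has a density
-/

set_option autoImplicit false

open MeasureTheory Set Filter Topology Metric

open scoped ENNReal NNReal ContDiff

namespace Pool.Agent.Helper97.RQ

open Pool.Agent.Helper12.RQ

section

variable {n : ℕ} {c l : ℝ} {N : E n → ℝ}

lemma lipW (hN : IsStar c l N) : LipschitzWith (Real.toNNReal l) N := by
  apply LipschitzWith.of_dist_le_mul
  intro x y
  rw [Real.dist_eq, dist_eq_norm]
  refine (hN.lip x y).trans ?_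
  exact mul_le_mul_of_nonneg_right (Real.le_coe_toNNReal l) (norm_nonneg _)

lemma ne_zero_of (hN : IsStar c l N) {B : Set ℝ} (hB : B ⊆ Ioi 0) {y : E n} (hy : y ∈ N ⁻¹' B) :
    y ≠ 0 := by
  rintro rfl
  have h := hB hy
  rw [hN.zero] at h
  exact absurd (mem_Ioi.1 h) (lt_irrefl _)

lemma grad_lower (hN : IsStar c l N) {y : E n} (hy : y ≠ 0) (hd : DifferentiableAt ℝ N y) :
    c ≤ ‖fderiv ℝ N y‖ := by
  have h1 : HasDerivAt (fun t : ℝ => N (t • y)) (fderiv ℝ N y y) 1 := by
    have h2 : HasFDerivAt N (fderiv ℝ N y) ((1 : ℝ) • y) := by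
      rw [one_smul]; exact hd.hasFDerivAt
    have h3 : HasDerivAt (fun t : ℝ => t • y) y 1 := by
      simpa using (hasDerivAt_id (1 : ℝ)).smul_const y
    exact h2.comp_hasDerivAt (1 : ℝ) h3
  have h4 := (hasDerivAt_iff_tendsto_slope.1 h1).mono_left
    (nhdsWithin_mono (1 : ℝ) (show Iio (1 : ℝ) ⊆ {1}ᶜ from fun t ht => ne_of_lt ht))
  have h5 : c * ‖y‖ ≤ fderiv ℝ N y y := by
    refine ge_of_tendsto h4 ?_
    have h6 : Ioo (0 : ℝ) 1 ∈ 𝓝[<] (1 : ℝ) := Ioo_mem_nhdsLT zero_lt_one
    filter_upwards [h6] with t ht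
    have h7 := hN.slope y t ⟨ht.1.le, ht.2.le⟩
    rw [slope_def_field]
    have h8 : (N (t • y) - N ((1 : ℝ) • y)) / (t - 1) = (N y - N (t • y)) / (1 - t) := by
      rw [one_smul, ← neg_sub (N y), ← neg_sub 1 t, neg_div_neg_eq]
    rw [h8, le_div_iff₀ (by linarith [ht.2])]
    linarith
  have h9 : fderiv ℝ N y y ≤ ‖fderiv ℝ N y‖ * ‖y‖ :=
    (le_abs_self _).trans ((fderiv ℝ N y).le_opNorm y)
  have h10 : 0 < ‖y‖ := norm_pos_iff.2 hy
  exact le_of_mul_le_mul_right (h5.trans h9) h10

lemma grad_upper (hN : IsStar c l N) (y : E n) : ‖fderiv ℝ N y‖ₑ ≤ ENNReal.ofReal l := by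
  have h := norm_fderiv_le_of_lipschitz ℝ (lipW hN) (x₀ := y)
  rw [← ofReal_norm]
  refine (ENNReal.ofReal_le_ofReal h).trans ?_
  rw [ENNReal.ofReal_coe_nnreal]
  exact le_rfl

lemma flux_le (hN : IsStar c l N) {p : ℝ} (hp : 0 ≤ p) {B : Set ℝ} :
    flux p N B ≤ ENNReal.ofReal l ^ p * volume (N ⁻¹' B) := by
  unfold flux
  calc ∫⁻ y in N ⁻¹' B, ‖fderiv ℝ N y‖ₑ ^ p ≤ ∫⁻ _ in N ⁻¹' B, ENNReal.ofReal l ^ p :=
        lintegral_mono fun y => ENNReal.rpow_le_rpow (grad_upper hN y) hp
    _ = _ := by rw [setLIntegral_const]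

lemma le_flux (hN : IsStar c l N) {p : ℝ} (hp : 0 ≤ p) {B : Set ℝ} (hB : MeasurableSet B)
    (hB0 : B ⊆ Ioi 0) :
    ENNReal.ofReal c ^ p * volume (N ⁻¹' B) ≤ flux p N B := by
  unfold flux
  rw [← setLIntegral_const]
  apply lintegral_mono_ae
  have hm : MeasurableSet (N ⁻¹' B) := (lipW hN).continuous.measurable hB
  rw [ae_restrict_iff' hm]
  filter_upwards [(lipW hN).ae_differentiableAt] with y hd hy
  apply ENNReal.rpow_le_rpow _ hp
  rw [← ofReal_norm]
  exact ENNReal.ofReal_le_ofReal (grad_lower hN (ne_zero_of hN hB0 hy) hd)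

end

theorem dens (h : StmtVOLC) : StmtDENS := by
  intro n p c l N hn hp hN
  obtain ⟨c₁, c₂, hc₁, hc₂, hV⟩ := h n c l N hn hN
  have hp0 : 0 ≤ p := by linarith
  have hNm : Measurable N := (lipW hN).continuous.measurable
  refine ⟨?_, ?_⟩
  · -- the weight and the reference measure
    set wt : ℝ → ℝ≥0∞ := fun s => ENNReal.ofReal (s ^ (n - 1)) with hwt
    have hwm : Measurable wt := by
      rw [hwt]; fun_prop
    set μ0 : Measure ℝ := volume.restrict (Ioi 0) with hμ0
    set m : Measure ℝ := μ0.withDensity wt with hm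
    have hsm : SigmaFinite m :=
      SigmaFinite.withDensity_of_ne_top' (fun x => ENNReal.ofReal_ne_top)
    set g : E n → ℝ≥0∞ := fun y => ‖fderiv ℝ N y‖ₑ ^ p with hg
    set ν : Measure ℝ := ((volume.withDensity g).map N).restrict (Ioi 0) with hν
    have hνB : ∀ B, MeasurableSet B → ν B = flux p N (B ∩ Ioi 0) := by
      intro B hB
      rw [hν, Measure.restrict_apply hB, Measure.map_apply hNm (hB.inter measurableSet_Ioi),
        withDensity_apply _ (hNm (hB.inter measurableSet_Ioi))]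
      rfl
    have hmB : ∀ B, MeasurableSet B → m B = ∫⁻ s in B ∩ Ioi 0, wt s := by
      intro B hB
      rw [hm, withDensity_apply _ hB, hμ0, Measure.restrict_restrict hB]
    -- constants
    set a₁ : ℝ≥0 := (Real.toNNReal c) ^ p * Real.toNNReal c₁ with ha₁
    set a₂ : ℝ≥0 := (Real.toNNReal l) ^ p * Real.toNNReal c₂ with ha₂
    have hlow : ∀ B, MeasurableSet B → (a₁ : ℝ≥0∞) * m B ≤ ν B := by
      intro B hB
      rw [hνB B hB, hmB B hB]
      refine le_trans ?_ (le_flux hN hp0 (hB.inter measurableSet_Ioi) inter_subset_right)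
      have h1 := (hV (B ∩ Ioi 0) (hB.inter measurableSet_Ioi) inter_subset_right).1
      rw [ha₁, ENNReal.coe_mul, ENNReal.coe_rpow_of_nonneg _ hp0, mul_assoc]
      exact mul_le_mul_right h1 _
    have hupp : ∀ B, MeasurableSet B → ν B ≤ (a₂ : ℝ≥0∞) * m B := by
      intro B hB
      rw [hνB B hB, hmB B hB]
      refine (flux_le hN hp0).trans ?_
      have h1 := (hV (B ∩ Ioi 0) (hB.inter measurableSet_Ioi) inter_subset_right).2
      rw [ha₂, ENNReal.coe_mul, ENNReal.coe_rpow_of_nonneg _ hp0, mul_assoc]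
      exact mul_le_mul_right h1 _
    have hle : ν ≤ a₂ • m := by
      rw [Measure.le_iff]
      intro s hs
      exact hupp s hs
    have hsf : SigmaFinite ν := Measure.sigmaFinite_of_le (a₂ • m) hle
    have hac : ν ≪ m := by
      refine (Measure.absolutelyContinuous_of_le hle).trans ?_
      exact Measure.smul_absolutelyContinuous
    set r : ℝ → ℝ≥0∞ := ν.rnDeriv m with hr
    have hrm : Measurable r := Measure.measurable_rnDeriv _ _
    have hνr : m.withDensity r = ν := Measure.withDensity_rnDeriv_eq _ _ hac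
    have hr1 : (fun _ => (a₁ : ℝ≥0∞)) ≤ᵐ[m] r := by
      apply ae_le_of_forall_setLIntegral_le_of_sigmaFinite measurable_const
      intro s hs _
      rw [setLIntegral_const, ← withDensity_apply _ hs, hνr]
      exact hlow s hs
    have hr2 : r ≤ᵐ[m] (fun _ => (a₂ : ℝ≥0∞)) := by
      apply ae_le_of_forall_setLIntegral_le_of_sigmaFinite hrm
      intro s hs _
      rw [setLIntegral_const, ← withDensity_apply _ hs, hνr]
      exact hupp s hs
    -- the clamped density
    set q : ℝ → ℝ≥0∞ := fun t => max (a₁ : ℝ≥0∞) (min (a₂ : ℝ≥0∞) (r t)) with hq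
    have hqm : Measurable q := measurable_const.max (measurable_const.min hrm)
    have hqr : q =ᵐ[m] r := by
      filter_upwards [hr1, hr2] with t h1 h2
      simp only [hq]
      rw [min_eq_right h2, max_eq_right h1]
    have hνq : m.withDensity q = ν := by
      rw [← hνr]; exact withDensity_congr_ae hqr
    have hνD : μ0.withDensity (wt * q) = ν := by
      rw [withDensity_mul _ hwm hqm]
      exact hνq
    refine ⟨wt * q, a₁, max a₁ a₂, hwm.mul hqm, ?_, ?_, ?_, ?_⟩
    · rw [ha₁]
      have : 0 < (Real.toNNReal c) ^ p * Real.toNNReal c₁ :=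
        mul_pos (NNReal.rpow_pos (Real.toNNReal_pos.2 hN.cpos)) (Real.toNNReal_pos.2 hc₁)
      exact_mod_cast this
    · intro t ht
      rw [mul_comm, ENNReal.ofReal_mul (by positivity), ENNReal.ofReal_coe_nnreal]
      simp only [Pi.mul_apply, hwt, hq]
      exact mul_le_mul_right (le_max_left _ _) _
    · intro t ht
      rw [mul_comm (max (a₁ : ℝ) (a₂ : ℝ)), ENNReal.ofReal_mul (by positivity)]
      simp only [Pi.mul_apply, hwt, hq]
      apply mul_le_mul_right
      have : ENNReal.ofReal (max (a₁ : ℝ) (a₂ : ℝ)) = max (a₁ : ℝ≥0∞) (a₂ : ℝ≥0∞) := by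
        rw [ENNReal.ofReal_max, ENNReal.ofReal_coe_nnreal, ENNReal.ofReal_coe_nnreal]
      rw [this]
      exact max_le_max le_rfl (min_le_left _ _)
    · intro B hB hB0
      have h1 := hνB B hB
      rw [inter_eq_self_of_subset_left hB0, ← hνD, withDensity_apply _ hB, hμ0,
        Measure.restrict_restrict hB, inter_eq_self_of_subset_left hB0] at h1
      exact h1.symm
  · intro B hB0 hB
    set B' : Set ℝ := toMeasurable volume B ∩ Ioi 0 with hB'
    have hBB' : B ⊆ B' := subset_inter (subset_toMeasurable _ _) hB0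
    have hm' : MeasurableSet B' := (measurableSet_toMeasurable _ _).inter measurableSet_Ioi
    have h0 : volume B' = 0 := by
      refine measure_mono_null inter_subset_left ?_
      rw [measure_toMeasurable, hB]
    refine measure_mono_null (preimage_mono hBB') ?_
    have h1 := (hV B' hm' inter_subset_right).2
    rw [setLIntegral_measure_zero _ _ h0, mul_zero] at h1
    exact le_antisymm h1 bot_le

end Pool.Agent.Helper97.RQ
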